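import Mathlib

/-! Ordered chains: formal sums of lists, boundary, cone, prism, supports. -/

namespace Pool.Agent.MP_b8a826_gt
open Set Finsupp

variable {R : Type} [CommRing R] {V W X : Type}

abbrev Ch (R V : Type) [CommRing R] : Type := List V →₀ R

/-- The generator of a list. -/
noncomputable def sg (R : Type) [CommRing R] (l : List V) : Ch R V := single l 1

/-- The linear map with given values on the generators. -/
noncomputable def ev {M : Type} [AddCommGroup M] [Module R M] (F : List V → M) :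
    Ch R V →ₗ[R] M := linearCombination R F

@[simp] theorem ev_sg {M : Type} [AddCommGroup M] [Module R M] (F : List V → M) (l : List V) :
    ev F (sg R l) = F l := by simp [ev, sg]

theorem ch_ind {p : Ch R V → Prop} (h0 : p 0) (ha : ∀ a b, p a → p b → p (a + b))
    (hs : ∀ (r : R) l, p (r • sg R l)) (c : Ch R V) : p c := by
  induction c using Finsupp.induction_linear with
  | zero => exact h0
  | add a b h1 h2 => exact ha a b h1 h2
  | single l r => simpa [sg] using hs r l

theorem ch_ext {M : Type} [AddCommGroup M] [Module R M] {f g : Ch R V →ₗ[R] M}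
    (h : ∀ l, f (sg R l) = g (sg R l)) (c : Ch R V) : f c = g c :=
  ch_ind (p := fun c => f c = g c) (by simp) (fun a b h1 h2 => by simp [h1, h2])
    (fun r l => by simp [h]) c

noncomputable def cone (v : V) : Ch R V →ₗ[R] Ch R V := ev fun l => sg R (v :: l)

@[simp] theorem cone_sg (v : V) (l : List V) : cone v (sg R l) = sg R (v :: l) := ev_sg _ _

noncomputable def bdL (R : Type) [CommRing R] : List V → Ch R V
  | [] => 0
  | v :: l => sg R l - cone v (bdL R l)

noncomputable def bd : Ch R V →ₗ[R] Ch R V := ev (bdL R)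

@[simp] theorem bd_nil : bd (sg R ([] : List V)) = 0 := ev_sg _ _

theorem bd_cons (v : V) (l : List V) : bd (sg R (v :: l)) = sg R l - cone v (bd (sg R l)) := by
  simp [bd, bdL]

theorem bd_cone (v : V) (c : Ch R V) : bd (cone v c) = c - cone v (bd c) :=
  ch_ext (f := bd ∘ₗ cone v) (g := LinearMap.id - cone v ∘ₗ bd) (fun l => by simp [bd_cons]) c

@[simp] theorem bd_bd (c : Ch R V) : bd (bd c) = 0 := by
  refine ch_ext (f := bd ∘ₗ bd) (g := 0) (fun l => ?_) c
  induction l with
  | nil => simp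
  | cons v l ih => simp_all [bd_cons, bd_cone]

theorem bd1 (x : V) : bd (sg R [x]) = sg R [] := by simp [bd_cons]
theorem bd2 (x y : V) : bd (sg R [x, y]) = sg R [y] - sg R [x] := by simp [bd_cons]
theorem bd3 (x y z : V) : bd (sg R [x, y, z]) = sg R [y, z] - sg R [x, z] + sg R [x, y] := by
  rw [bd_cons, bd2]; simp; abel
theorem bd4 (x y z w : V) : bd (sg R [x, y, z, w]) =
    sg R [y, z, w] - sg R [x, z, w] + sg R [x, y, w] - sg R [x, y, z] := by
  rw [bd_cons, bd3]; simp; abel

noncomputable def mp (f : V → W) : Ch R V →ₗ[R] Ch R W := ev fun l => sg R (l.map f)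

@[simp] theorem mp_sg (f : V → W) (l : List V) : mp f (sg R l) = sg R (l.map f) := ev_sg _ _

theorem mp_cone (f : V → W) (v : V) (c : Ch R V) : mp f (cone v c) = cone (f v) (mp f c) :=
  ch_ext (f := mp f ∘ₗ cone v) (g := cone (f v) ∘ₗ mp f) (fun l => by simp) c

theorem bd_mp (f : V → W) (c : Ch R V) : bd (mp f c) = mp f (bd c) := by
  refine ch_ext (f := bd ∘ₗ mp f) (g := mp f ∘ₗ bd) (fun l => ?_) c
  induction l with
  | nil => simp
  | cons v l ih => simp_all [bd_cons, mp_cone]

theorem mp_mp (f : V → W) (g : W → X) (c : Ch R V) : mp g (mp f c) = mp (g ∘ f) c :=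
  ch_ext (f := mp g ∘ₗ mp f) (g := mp (g ∘ f)) (fun l => by simp) c

@[simp] theorem mp_id (c : Ch R V) : mp id c = c :=
  ch_ext (f := mp id) (g := LinearMap.id) (fun l => by simp) c

noncomputable def prL (R : Type) [CommRing R] (f g : V → W) : List V → Ch R W
  | [] => 0
  | v :: l => sg R (f v :: g v :: l.map g) - cone (f v) (prL R f g l)

/-- The prism operator. -/
noncomputable def pr (f g : V → W) : Ch R V →ₗ[R] Ch R W := ev (prL R f g)

theorem pr_cone (f g : V → W) (v : V) (c : Ch R V) :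
    pr f g (cone v c) = cone (f v) (mp g (cone v c)) - cone (f v) (pr f g c) :=
  ch_ext (f := pr f g ∘ₗ cone v) (g := cone (f v) ∘ₗ mp g ∘ₗ cone v - cone (f v) ∘ₗ pr f g)
    (fun l => by simp [pr, prL]) c

theorem bd_pr (f g : V → W) (c : Ch R V) :
    bd (pr f g c) + pr f g (bd c) = mp g c - mp f c := by
  refine ch_ext (f := bd ∘ₗ pr f g + pr f g ∘ₗ bd) (g := mp g - mp f) (fun l => ?_) c
  induction l with
  | nil => simp [pr, prL]
  | cons v l ih =>
    simp only [LinearMap.add_apply, LinearMap.comp_apply, LinearMap.sub_apply] at ih ⊢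
    have e : pr f g (bd (sg R l)) = mp g (sg R l) - mp f (sg R l) - bd (pr f g (sg R l)) := by
      rw [← ih]; abel
    rw [← cone_sg, pr_cone, bd_cone, map_sub, map_sub, bd_cone, bd_cone, pr_cone, e, bd_mp,
      bd_cone]
    simp only [map_sub, mp_cone]
    abel

/-- Chains of lists of length `n` whose vertex set satisfies `K`. -/
def C (R : Type) [CommRing R] (K : Set V → Prop) (n : ℕ) : Submodule R (Ch R V) :=
  supported R R {l | l.length = n ∧ K {v | v ∈ l}}

/-- Hereditary families. -/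
def Her (K : Set V → Prop) : Prop := ∀ s t, s ⊆ t → K t → K s

theorem mem_C {K : Set V → Prop} {n : ℕ} {c : Ch R V} :
    c ∈ C R K n ↔ ∀ l, c l ≠ 0 → l.length = n ∧ K {v | v ∈ l} := by
  simp [C, mem_supported, Set.subset_def]

theorem sg_mem {K : Set V → Prop} {n : ℕ} {l : List V} (h : l.length = n) (h' : K {v | v ∈ l}) :
    sg R l ∈ C R K n := single_mem_supported R 1 ⟨h, h'⟩

theorem C_ind {K : Set V → Prop} {n : ℕ} {p : Ch R V → Prop} (h0 : p 0)
    (ha : ∀ a b, p a → p b → p (a + b)) (hm : ∀ (r : R) a, p a → p (r • a))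
    (hs : ∀ l, l.length = n → K {v | v ∈ l} → p (sg R l)) {c : Ch R V} (hc : c ∈ C R K n) :
    p c := by
  rw [C, supported_eq_span_single] at hc
  induction hc using Submodule.span_induction with
  | mem x hx => obtain ⟨l, hl, rfl⟩ := hx; exact hs l hl.1 hl.2
  | zero => exact h0
  | add a b _ _ h1 h2 => exact ha a b h1 h2
  | smul r a _ h => exact hm r a h

theorem C_map {M : Type} [AddCommGroup M] [Module R M] {K : Set V → Prop} {n : ℕ}
    (f : Ch R V →ₗ[R] M) (N : Submodule R M)
    (hs : ∀ l, l.length = n → K {v | v ∈ l} → f (sg R l) ∈ N) {c : Ch R V} (hc : c ∈ C R K n) :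
    f c ∈ N :=
  C_ind (p := fun c => f c ∈ N) (by simp) (fun a b h1 h2 => by simpa using N.add_mem h1 h2)
    (fun r a h => by simpa using N.smul_mem r h) hs hc

theorem C_ext {M : Type} [AddCommGroup M] [Module R M] {K : Set V → Prop} {n : ℕ}
    {f g : Ch R V →ₗ[R] M} (hs : ∀ l, l.length = n → K {v | v ∈ l} → f (sg R l) = g (sg R l))
    {c : Ch R V} (hc : c ∈ C R K n) : f c = g c := by
  have := C_map (f - g) ⊥ (fun l h1 h2 => by simp [hs l h1 h2]) hc
  simpa [sub_eq_zero] using this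

theorem C_mono {K K' : Set V → Prop} {n : ℕ} (h : ∀ s, K s → K' s) {c : Ch R V}
    (hc : c ∈ C R K n) : c ∈ C R K' n :=
  mem_C.2 fun l hl => ⟨(mem_C.1 hc l hl).1, h _ (mem_C.1 hc l hl).2⟩

theorem C_and {K K' : Set V → Prop} {n : ℕ} {c : Ch R V} (hc : c ∈ C R K n) (hc' : c ∈ C R K' n) :
    c ∈ C R (fun s => K s ∧ K' s) n :=
  mem_C.2 fun l hl => ⟨(mem_C.1 hc l hl).1, (mem_C.1 hc l hl).2, (mem_C.1 hc' l hl).2⟩

theorem C_or {K K' : Set V → Prop} {n : ℕ} {c : Ch R V} (hc : c ∈ C R (fun s => K s ∨ K' s) n) :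
    ∃ a ∈ C R K n, ∃ b ∈ C R K' n, c = a + b := by
  refine C_ind (p := fun c => ∃ a ∈ C R K n, ∃ b ∈ C R K' n, c = a + b)
    ⟨0, zero_mem _, 0, zero_mem _, by simp⟩ ?_ ?_ ?_ hc
  · rintro _ _ ⟨a, ha, b, hb, rfl⟩ ⟨a', ha', b', hb', rfl⟩
    exact ⟨_, add_mem ha ha', _, add_mem hb hb', by abel⟩
  · rintro r _ ⟨a, ha, b, hb, rfl⟩
    exact ⟨_, Submodule.smul_mem _ r ha, _, Submodule.smul_mem _ r hb, smul_add _ _ _⟩
  · rintro l h (h' | h')
    · exact ⟨_, sg_mem h h', 0, zero_mem _, by simp⟩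
    · exact ⟨0, zero_mem _, _, sg_mem h h', by simp⟩

theorem C_eq_zero {K : Set V → Prop} {n : ℕ} (h : ∀ s : Set V, s.Nonempty → ¬ K s) {c : Ch R V}
    (hc : c ∈ C R K (n + 1)) : c = 0 := by
  ext l
  by_contra hl
  obtain ⟨h1, h2⟩ := mem_C.1 hc l hl
  obtain ⟨v, l, rfl⟩ := List.exists_cons_of_length_eq_add_one h1
  exact h _ ⟨v, by simp⟩ h2

theorem cone_mem {K K' : Set V → Prop} {n : ℕ} {v : V} (h : ∀ s, K s → K' (insert v s))
    {c : Ch R V} (hc : c ∈ C R K n) : cone v c ∈ C R K' (n + 1) :=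
  C_map _ _ (fun l h1 h2 => by
    rw [cone_sg]
    refine sg_mem (by simp [h1]) ?_
    convert h _ h2 using 1
    ext; simp) hc

theorem bd_sg_mem (l : List V) :
    bd (sg R l) ∈ C R (fun s => s ⊆ {v | v ∈ l}) (l.length - 1) := by
  induction l with
  | nil => simp
  | cons v l ih =>
    rw [bd_cons]
    refine sub_mem (sg_mem (by simp) fun w hw => List.mem_cons_of_mem _ hw) ?_
    rcases l with _ | ⟨w, l⟩
    · simp
    · refine cone_mem (K' := fun s => s ⊆ {x | x ∈ v :: w :: l}) (n := l.length)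
        (fun s hs => insert_subset (by simp) fun x hx => ?_) ih
      exact List.mem_cons_of_mem _ (hs hx)

theorem bd_mem {K : Set V → Prop} (hK : Her K) {n : ℕ} {c : Ch R V} (hc : c ∈ C R K (n + 1)) :
    bd c ∈ C R K n :=
  C_map _ _ (fun l h1 h2 => by
    have := bd_sg_mem (R := R) l
    rw [h1] at this
    exact C_mono (fun s hs => hK _ _ hs h2) this) hc

theorem bd_zero {K : Set V → Prop} {c : Ch R V} (hc : c ∈ C R K 0) : bd c = 0 :=
  C_ext (f := bd) (g := 0) (fun l h _ => by simp [List.length_eq_zero_iff.1 h]) hc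

theorem set_map (f : V → W) (l : List V) : {w | w ∈ l.map f} = f '' {v | v ∈ l} := by
  ext; simp

theorem mp_mem {K : Set V → Prop} {K' : Set W → Prop} {n : ℕ} {f : V → W}
    (h : ∀ s, K s → K' (f '' s)) {c : Ch R V} (hc : c ∈ C R K n) : mp f c ∈ C R K' n :=
  C_map _ _ (fun l h1 h2 => by
    rw [mp_sg]
    exact sg_mem (by simp [h1]) (by rw [set_map]; exact h _ h2)) hc

theorem mp_congr {K : Set V → Prop} {n : ℕ} {f g : V → W} (h : ∀ s, K s → EqOn f g s)
    {c : Ch R V} (hc : c ∈ C R K n) : mp f c = mp g c :=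
  C_ext (fun l _ h2 => by
    rw [mp_sg, mp_sg, List.map_congr_left fun v hv => h _ h2 hv]) hc

theorem pr_sg_mem (f g : V → W) (l : List V) : pr f g (sg R l) ∈
    C R (fun s => s ⊆ f '' {v | v ∈ l} ∪ g '' {v | v ∈ l}) (l.length + 1) := by
  induction l with
  | nil => simp [pr, prL]
  | cons v l ih =>
    have e : pr f g (sg R (v :: l)) =
        sg R (f v :: g v :: l.map g) - cone (f v) (pr f g (sg R l)) := by simp [pr, prL]
    rw [e]
    refine sub_mem (sg_mem (by simp) fun w hw => ?_) (cone_mem (fun s hs => ?_) ih)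
    · simp only [List.mem_cons, List.mem_map, Set.mem_ofPred_eq] at hw
      rcases hw with rfl | rfl | ⟨a, ha, rfl⟩
      · exact Or.inl ⟨v, by simp, rfl⟩
      · exact Or.inr ⟨v, by simp, rfl⟩
      · exact Or.inr ⟨a, by simp [ha], rfl⟩
    · refine insert_subset (Or.inl ⟨v, by simp, rfl⟩) (hs.trans ?_)
      have : {x | x ∈ l} ⊆ {x | x ∈ v :: l} := fun x hx => List.mem_cons_of_mem _ hx
      gcongr

theorem pr_mem {K : Set V → Prop} {K' : Set W → Prop} (hK : Her K') {n : ℕ} {f g : V → W}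
    (h : ∀ s, K s → K' (f '' s ∪ g '' s)) {c : Ch R V} (hc : c ∈ C R K n) :
    pr f g c ∈ C R K' (n + 1) :=
  C_map _ _ (fun l h1 h2 => by
    have := pr_sg_mem (R := R) f g l
    rw [h1] at this
    exact C_mono (fun s hs => hK _ _ hs (h _ h2)) this) hc

/-- A chain of contiguous maps gives a chain homotopy. -/
theorem contig (f : ℕ → V → W) (N : ℕ) : ∃ D : Ch R V →ₗ[R] Ch R W,
    (∀ c, bd (D c) + D (bd c) = mp (f N) c - mp (f 0) c) ∧
    ∀ (K : Set V → Prop) (K' : Set W → Prop), Her K' →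
      (∀ j < N, ∀ s, K s → K' (f j '' s ∪ f (j + 1) '' s)) →
      ∀ n, ∀ c ∈ C R K n, D c ∈ C R K' (n + 1) := by
  refine ⟨∑ j ∈ Finset.range N, pr (f j) (f (j + 1)), fun c => ?_, fun K K' hK h n c hc => ?_⟩
  · simp only [LinearMap.sum_apply, map_sum, ← Finset.sum_add_distrib, bd_pr]
    exact Finset.sum_range_sub (fun j => mp (f j) c) N
  · rw [LinearMap.sum_apply]
    exact Submodule.sum_mem _ fun j hj => pr_mem hK (h j (Finset.mem_range.1 hj)) hc

/-- Change of coefficients. -/
noncomputable def red (R : Type) [CommRing R] : Ch ℤ V →ₗ[ℤ] Ch R V := ev fun l => sg R l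

@[simp] theorem red_sg (l : List V) : red R (sg ℤ l) = sg R l := ev_sg _ _

theorem red_cone (v : V) (c : Ch ℤ V) : red R (cone v c) = cone v (red R c) :=
  ch_ind (p := fun c => red R (cone v c) = cone v (red R c)) (by simp)
    (fun a b h1 h2 => by simp [h1, h2]) (fun r l => by simp) c

theorem bd_red (c : Ch ℤ V) : bd (red R c) = red R (bd c) := by
  refine ch_ind (p := fun c => bd (red R c) = red R (bd c)) (by simp)
    (fun a b h1 h2 => by simp [h1, h2]) (fun r l => ?_) c
  simp only [map_zsmul, red_sg]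
  congr 1
  induction l with
  | nil => simp
  | cons v l ih => simp_all [bd_cons, red_cone]

theorem mp_red (f : V → W) (c : Ch ℤ V) : mp f (red R c) = red R (mp f c) :=
  ch_ind (p := fun c => mp f (red R c) = red R (mp f c)) (by simp)
    (fun a b h1 h2 => by simp [h1, h2]) (fun r l => by simp) c

theorem red_apply (c : Ch ℤ V) (l : List V) : red R c l = (c l : R) :=
  ch_ind (p := fun c => red R c l = (c l : R)) (by simp)
    (fun a b h1 h2 => by simp [h1, h2]) (fun r m => by
      classical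
      rw [map_zsmul, red_sg]
      simp [sg, single_apply]) c

theorem red_mem {K : Set V → Prop} {n : ℕ} {c : Ch ℤ V} (hc : c ∈ C ℤ K n) :
    red R c ∈ C R K n :=
  mem_C.2 fun l hl => mem_C.1 hc l fun h => hl (by simp [red_apply, h])

end Pool.Agent.MP_b8a826_gt
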