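import Mathlib

/-! Knots in the unit sphere of `ℂ²`, patterns, satellites and locally flat concordance. -/

namespace Pool.Agent.MP_b8a826_gt
open Set unitInterval

/-- The three-sphere. -/
abbrev S3 : Type := Metric.sphere (0 : EuclideanSpace ℂ (Fin 2)) 1

/-- The standard embedding of the open solid torus; the closed solid torus is `‖x.2‖ ≤ 1`. -/
noncomputable def std (x : Circle × ℂ) : EuclideanSpace ℂ (Fin 2) :=
  (√(1 + ‖x.2‖ ^ 2))⁻¹ • !₂[(x.1 : ℂ), x.2]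

/-- The pattern is unknotted in the sphere. -/
def Unknotted (P : Circle → Circle × ℂ) : Prop :=
  ∃ h : S3 ≃ₜ S3, ∀ y : S3, (∃ θ, y.1 = std (P θ)) ↔ (h y).1 1 = 0

/-- The longitude `θ ↦ e (θ, 1)` is null-homologous in the complement of the core. -/
def Seifert (e : Circle × ℂ → S3) : Prop :=
  ∀ f : S3 → Circle, ContinuousOn f (range fun θ => e (θ, 0))ᶜ →
    ∃ g : C(Circle, ℝ), ∀ θ, f (e (θ, 1)) = Circle.exp (g θ)

/-- A locally flat surface. -/
def LocFlat (A : Set (S3 × I)) : Prop :=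
  ∀ x ∈ A, ∃ φ : OpenPartialHomeomorph (S3 × I) (Ici (0 : ℝ) × ℝ × ℂ),
    x ∈ φ.source ∧ ∀ y ∈ φ.source, y ∈ A ↔ (φ y).2.2 = 0

/-- Topological concordance (orientations are ignored). -/
def Concordant (K₀ K₁ : Set S3) : Prop :=
  ∃ A : C(Circle × I, S3 × I), Function.Injective A ∧
    (∀ θ u, (A (θ, u)).2 = 0 ↔ u = 0) ∧ (∀ θ u, (A (θ, u)).2 = 1 ↔ u = 1) ∧
    (range fun θ => (A (θ, 0)).1) = K₀ ∧ (range fun θ => (A (θ, 1)).1) = K₁ ∧
    LocFlat (range A)

end Pool.Agent.MP_b8a826_gt
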