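import Mathlib

/-! The Mazur pattern as an explicit curve in the solid torus. -/

namespace Pool.Agent.MP_b8a826_gt

/-- The Mazur pattern. At `z = exp (i φ)` the angle along the solid torus is `φ + 2 π sin φ` and
the point of the disc is `cos φ (sin φ + i) / 2`. Draw the solid torus as an annulus with radial
coordinate the imaginary part `cos φ / 2` and depth the real part `cos φ sin φ / 2`. The arcs
`0 ≤ φ ≤ π` and `-π ≤ φ ≤ 0` cross where `φ / π + 2 sin φ` is an integer: at `φ ≈ ± 0.44` and
`φ ≈ ± 1.0` the first arc is in front, at `φ ≈ ± 2.5` the second one. The last two crossings form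
the clasp. -/
noncomputable def mazur : C(Circle, Circle × ℂ) :=
  ⟨fun z => (z * Circle.exp (2 * Real.pi * (z : ℂ).im),
    (z : ℂ).re * ((z : ℂ).im + Complex.I) / 2), by fun_prop⟩

end Pool.Agent.MP_b8a826_gt
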